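import Pool.Agent.H450Z.GSUndet

set_option autoImplicit false

namespace Pool.Agent.Results.MP_801c54_lc.AForcedGap

open Pool.Agent.H450Z.GS

/-- There is a forcing notion which adds no reals (so that the ground model set `Set ℕ` has size
continuum in the extension) and forces that for some payoff set the Gale-Stewart game on the
boards `Set ℕ` is determined and the game on the boards `ℕ` is not. -/
theorem result :
    ∃ (P : Type) (_ : Preorder P), Nonempty P ∧ ∀ p : P, p ∈ NoNewSubsets P ℕ ∧
      p ∈ fex fun S : (ℕ → ℕ → Set P) → Set P =>
        Determined (Set ℕ) S ∩ fnot (Determined ℕ S) :=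
  gap

end Pool.Agent.Results.MP_801c54_lc.AForcedGap
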